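import Pool.Agent.H82.NTC.Stmts

/-!
# Board `ntb`, row XAJ3
-/

set_option autoImplicit false

namespace Pool.NTC

open Pool.NET

theorem xaj3_key (S a b : ℤ) (hS : 0 < S) :
    a = b ∨ a = b + 1 ∨ a = b - 1 ∨ S * b + 2 * S ≤ S * a ∨ S * a ≤ S * b - 2 * S := by
  rcases lt_trichotomy a b with h | h | h
  · by_cases h1 : a = b - 1
    · exact Or.inr (Or.inr (Or.inl h1))
    · refine Or.inr (Or.inr (Or.inr (Or.inr ?_)))
      have h2 : a ≤ b - 2 := by omega
      have h3 := mul_le_mul_of_nonneg_left h2 hS.le
      linarith
  · exact Or.inl h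
  · by_cases h1 : a = b + 1
    · exact Or.inr (Or.inl h1)
    · refine Or.inr (Or.inr (Or.inr (Or.inl ?_)))
      have h2 : b + 2 ≤ a := by omega
      have h3 := mul_le_mul_of_nonneg_left h2 hS.le
      linarith

/-- Three alternatives for a column or row. -/
theorem xaj3_key3 (S a b : ℤ) (hS : 0 < S) :
    a = b ∨ S * b + S ≤ S * a ∨ S * a ≤ S * b - S := by
  rcases xaj3_key S a b hS with h | h | h | h | h
  · exact Or.inl h
  · subst h
    refine Or.inr (Or.inl (le_of_eq ?_))
    ring
  · subst h
    refine Or.inr (Or.inr (le_of_eq ?_))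
    ring
  · exact Or.inr (Or.inl (by linarith))
  · exact Or.inr (Or.inr (by linarith))

theorem xaj3_thm : XSA Ke.J3 := by
  intro p e g N h u hp hN hU v w hv hw h1 h2 h3 h4
  obtain ⟨q, W, M, S⟩ := p
  obtain ⟨q0, gq, gW, We, eM, MS⟩ := hp
  obtain ⟨c, r⟩ := v
  obtain ⟨⟨c', r'⟩, k⟩ := w
  dsimp only at q0 gq gW We eM MS
  have hS : 0 < S := by omega
  have h2' : fx ⟨q, W, M, S⟩ e g ((c', r'), k) ≤ S * c - e + q := by
    refine le_trans h2 (le_of_eq ?_)
    by_cases hu : u (c, r - 1)
    · simp only [hi, nx2, fx, if_pos hu]
    · simp only [hi, nx2, fx, if_neg hu]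
  have h1' : S * c - M + 2 * q ≤ fx ⟨q, W, M, S⟩ e g ((c', r'), k) := by
    refine le_trans (le_of_eq ?_) h1
    simp only [lo, fx]
    ring
  clear h1 h2
  have hc := xaj3_key3 S c' c hS
  have hr := xaj3_key3 S r' r hS
  cases k
  case NW =>
    simp only [fx] at h1' h2'
    rcases hc with rfl | hc | hc
    · simp only [jl, jh, fy] at h3 h4
      rcases xaj3_key S r' r hS with rfl | rfl | rfl | hr | hr
      · exfalso
        omega
      · exfalso
        rw [mul_add, mul_one] at h3
        omega
      · by_cases hu : u (c', r - 1)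
        · right
          simp only [nx2, if_pos hu]
        · exfalso
          simp only [pv2, if_neg hu, fy, mul_sub, mul_one] at h4
          omega
      · exfalso
        omega
      · exfalso
        by_cases hu : u (c', r')
        · simp only [pv2, if_pos hu, fy, mul_add, mul_one] at h4
          omega
        · simp only [pv2, if_neg hu, fy] at h4
          omega
    · exfalso
      omega
    · exfalso
      omega
  case B =>
    simp only [fx] at h1' h2'
    rcases hc with rfl | hc | hc
    · simp only [jl, jh, fy, pv2] at h3 h4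
      rcases hr with rfl | hr | hr
      · right
        simp only [nx2, if_neg hw.2]
      · exfalso
        omega
      · exfalso
        omega
    · exfalso
      omega
    · exfalso
      omega
  case J3 =>
    simp only [fx] at h1' h2'
    rcases hc with rfl | hc | hc
    · simp only [jl, jh, fy] at h3 h4
      rcases hr with rfl | hr | hr
      · left
        rfl
      · exfalso
        omega
      · exfalso
        omega
    · exfalso
      omega
    · exfalso
      omega
  all_goals
    exfalso
    simp only [fx] at h1' h2'
    rcases hc with rfl | hc | hc <;> omega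

end Pool.NTC
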